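import Pool.Agent.H71.CR.Stmt

/-! DEC: sets of finite index are decided by a good step. -/

set_option autoImplicit false

open Set Pool.Agent.TK Pool.Agent.H71.VK

namespace Pool.Agent.CR

private lemma h14_finl (V : List ℕ) (k : ℕ) :
    {l : List ℕ | l.length ≤ k ∧ ∀ a ∈ l, a ∈ V}.Finite := by
  classical
  have h1 : Finite {a // a ∈ V} := (List.finite_toSet V).to_subtype
  refine ((List.finite_length_le {a // a ∈ V} k).image (List.map Subtype.val)).subset ?_
  rintro l ⟨hl, hV⟩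
  refine ⟨l.attach.map (fun a => ⟨a.1, hV a.1 a.2⟩), by simpa using hl, ?_⟩
  rw [List.map_map]
  exact List.attach_map_subtype_val l

/-- closures of lists of a side are in the ideal -/
private lemma h14_side {n : Bd} {c : Lf} {Sm : Pr → Prop} (hREX : T_REX) (G : GS n c Sm) (π : Pr)
    (hv : Vd c π) (S : List ℕ) (hSP : ∀ a ∈ S, a ∈ st c π) (Z : Set ℕ)
    (hZ : Cc c (S ++ zl π) [] (Ur (st c π) (S ++ zl π)) Z)
    (hno : ∀ s : Stp, Vd c (s :: π) → st c (s :: π) ⊆ Z → G.Nn (st c (s :: π)))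
    (X : List ℕ) (hX : ∀ a ∈ X, a ∈ Z) : G.Nn (cl c (st c π) (S ++ zl π) [] (X, [])) := by
  have hXU : ∀ a ∈ X, a ∈ Ur (st c π) (S ++ zl π) := fun a ha => hZ.sub (hX a ha)
  obtain ⟨R, hR⟩ := hREX n c G.lb (st c π) (S ++ zl π) [] X hXU
  have hvd : Vd c ((S, [], (X, R), true) :: π) :=
    vd_cons.2 ⟨hv, hSP, by simp, hXU, hR⟩
  have h1 := hno _ hvd (by
    rw [st_true]
    exact cl_min hZ hX)
  rw [st_true] at h1
  exact h1

theorem pf_DEC (hREP : T_REP) (hREX : T_REX) (hFIX : T_FIX) (hCON : T_CON) : T_DEC := by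
  classical
  intro n c Sm G π hv hgood A hA
  obtain ⟨S, hSP, c1, c2⟩ := hFIX n c G.lb (st c π) A (zl π) hA
  by_contra hno
  push Not at hno
  set P := st c π with hPdef
  set L0 := S ++ zl π with hL0
  set Z1 : Set ℕ := {a | a ∈ Ur P L0 ∧ a ∈ A} with hZ1
  set Z2 : Set ℕ := {a | a ∈ Ur P L0 ∧ a ∉ A} with hZ2
  have hn1 : ∀ X : List ℕ, (∀ a ∈ X, a ∈ Z1) → G.Nn (cl c P L0 [] (X, [])) := by
    refine h14_side hREX G π hv S hSP Z1 c1 ?_
    intro s hs hsub
    by_contra h
    exact (hno s hs h).1 fun y hy => (hsub hy).2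
  have hn2 : ∀ X : List ℕ, (∀ a ∈ X, a ∈ Z2) → G.Nn (cl c P L0 [] (X, [])) := by
    refine h14_side hREX G π hv S hSP Z2 c2 ?_
    intro s hs hsub
    by_contra h
    exact (hno s hs h).2 (Set.disjoint_left.2 fun y hy => (hsub hy).2)
  obtain ⟨E1, hE1, hE1'⟩ := hREP n c G.lb L0 n.2 (fun x => ∀ a ∈ x, a ∈ Z1)
  obtain ⟨E2, hE2, hE2'⟩ := hREP n c G.lb L0 n.2 (fun x => ∀ a ∈ x, a ∈ Z2)
  obtain ⟨V, hV⟩ : ∃ V, V = S ++ (E1.flatten ++ E2.flatten) := ⟨_, rfl⟩
  have hVP : ∀ a ∈ V, a ∈ P := by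
    intro a ha
    rw [hV, List.mem_append, List.mem_append] at ha
    rcases ha with h | h | h
    · exact hSP a h
    · obtain ⟨l, hl, hal⟩ := List.mem_flatten.1 h
      exact (hE1 l hl a hal).1.1
    · obtain ⟨l, hl, hal⟩ := List.mem_flatten.1 h
      exact (hE2 l hl a hal).1.1
  refine hCON n c Sm G π hv hgood (h14_finl V n.2).toFinset.toList ?_ ?_
  · intro e he a ha
    rw [Finset.mem_toList, Set.Finite.mem_toFinset] at he
    exact hVP a (he.2 a ha)
  · intro x hxn hxP
    -- the two groups of points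
    obtain ⟨x1, hx1⟩ : ∃ x1, x1 = x.filter (fun a => decide (a ∈ Z1)) := ⟨_, rfl⟩
    obtain ⟨x2, hx2⟩ : ∃ x2, x2 = x.filter (fun a => decide (a ∈ Z2)) := ⟨_, rfl⟩
    have m1 : ∀ a, a ∈ x1 ↔ a ∈ x ∧ a ∈ Z1 := by
      intro a
      rw [hx1, List.mem_filter, decide_eq_true_iff]
    have m2 : ∀ a, a ∈ x2 ↔ a ∈ x ∧ a ∈ Z2 := by
      intro a
      rw [hx2, List.mem_filter, decide_eq_true_iff]
    obtain ⟨e1, he1, hl1, hp1⟩ := hE1' x1 (by
      rw [hx1]
      exact (List.length_filter_le _ _).trans hxn) (fun a ha => ((m1 a).1 ha).2)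
    obtain ⟨e2, he2, hl2, hp2⟩ := hE2' x2 (by
      rw [hx2]
      exact (List.length_filter_le _ _).trans hxn) (fun a ha => ((m2 a).1 ha).2)
    obtain ⟨φ, hφ⟩ : ∃ φ : ℕ → ℕ, ∀ a, φ a = if a ∈ x1 then e1.getD (x1.idxOf a) 0 else
        if a ∈ x2 then e2.getD (x2.idxOf a) 0 else a := ⟨_, fun _ => rfl⟩
    have q1 : ∀ a ∈ x1, (a, φ a) ∈ x1.zip e1 := by
      intro a ha
      have hi : x1.idxOf a < x1.length := List.idxOf_lt_length_iff.2 ha
      have h := get_zip (x := x1) (y := e1) hi (by omega)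
      rw [hφ, if_pos ha, List.getD_eq_getElem _ _ (by omega)]
      rwa [List.getElem_idxOf] at h
    have d12 : ∀ a, a ∈ x2 → a ∉ x1 := fun a h2 h1 => ((m2 a).1 h2).2.2 ((m1 a).1 h1).2.2
    have q2 : ∀ a ∈ x2, (a, φ a) ∈ x2.zip e2 := by
      intro a ha
      have hi : x2.idxOf a < x2.length := List.idxOf_lt_length_iff.2 ha
      have h := get_zip (x := x2) (y := e2) hi (by omega)
      rw [hφ, if_neg (d12 a ha), if_pos ha, List.getD_eq_getElem _ _ (by omega)]
      rwa [List.getElem_idxOf] at h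
    have q3 : ∀ a ∈ x, a ∉ x1 → a ∉ x2 → φ a = a ∧ a ∈ S := by
      intro a ha h1 h2
      refine ⟨by rw [hφ, if_neg h1, if_neg h2], ?_⟩
      have haP := hxP a ha
      have h3 : a ∈ L0 := by
        by_contra h
        by_cases hA' : a ∈ A
        · exact h1 ((m1 a).2 ⟨ha, ⟨haP, h⟩, hA'⟩)
        · exact h2 ((m2 a).2 ⟨ha, ⟨haP, h⟩, hA'⟩)
      rcases List.mem_append.1 h3 with h | h
      · exact h
      · exact absurd haP (zl_disj hv a h)
    have r1 : ∀ a ∈ x1, φ a ∈ e1 := by
      intro a ha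
      obtain ⟨i, hi, hi', hh⟩ := zip_get (q1 a ha)
      have := congrArg Prod.snd hh
      simp only at this
      rw [this]
      exact List.getElem_mem _
    have r2 : ∀ a ∈ x2, φ a ∈ e2 := by
      intro a ha
      obtain ⟨i, hi, hi', hh⟩ := zip_get (q2 a ha)
      have := congrArg Prod.snd hh
      simp only at this
      rw [this]
      exact List.getElem_mem _
    refine ⟨x.map φ, ?_, ?_⟩
    · rw [Finset.mem_toList, Set.Finite.mem_toFinset]
      refine ⟨by rw [List.length_map]; exact hxn, ?_⟩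
      intro b hb
      obtain ⟨a, ha, rfl⟩ := List.mem_map.1 hb
      rw [hV, List.mem_append, List.mem_append]
      by_cases h1 : a ∈ x1
      · exact Or.inr (Or.inl (List.mem_flatten.2 ⟨e1, he1, r1 a h1⟩))
      · by_cases h2 : a ∈ x2
        · exact Or.inr (Or.inr (List.mem_flatten.2 ⟨e2, he2, r2 a h2⟩))
        · obtain ⟨h3, h4⟩ := q3 a ha h1 h2
          rw [h3]
          exact Or.inl h4
    · -- the germs agree
      have u1 : ∀ a ∈ x1 ++ e1, a ∈ Z1 := by
        intro a ha
        rcases List.mem_append.1 ha with h | h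
        · exact ((m1 a).1 h).2
        · exact hE1 e1 he1 a h
      have u2 : ∀ a ∈ x2 ++ e2, a ∈ Z2 := by
        intro a ha
        rcases List.mem_append.1 ha with h | h
        · exact ((m2 a).1 h).2
        · exact hE2 e2 he2 a h
      refine ⟨(cl c P L0 [] (x1 ++ e1, []) ∪ cl c P L0 [] (x2 ++ e2, [])) ∪ {a | a ∈ S},
        ((hn1 _ u1).union (hn2 _ u2)).union (G.nn_list S), by rw [List.length_map], ?_⟩
      intro D hD
      have w1 : ∀ a ∈ x1 ++ e1, a ∈ Ur P L0 := fun a ha => (u1 a ha).1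
      have w2 : ∀ a ∈ x2 ++ e2, a ∈ Ur P L0 := fun a ha => (u2 a ha).1
      have hC : ∀ y ∈ D.filter (fun y => decide (y ∈ P)), y ∈ Ur P L0 ∧
          y ∉ cl c P L0 [] (x1 ++ e1, []) ∧ y ∉ cl c P L0 [] (x2 ++ e2, []) := by
        intro y hy
        rw [List.mem_filter, decide_eq_true_iff] at hy
        rcases hD y hy.1 with ⟨-, h⟩ | h
        · refine ⟨⟨hy.2, ?_⟩, fun h' => h (Or.inl (Or.inl h')), fun h' => h (Or.inl (Or.inr h'))⟩
          intro h'
          rcases List.mem_append.1 h' with h'' | h''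
          · exact h (Or.inr h'')
          · exact zl_disj hv y h'' hy.2
        · exact absurd hy.2 (zl_disj hv y h)
      have s1 : cl c P L0 [] (x1 ++ e1, []) ⊆ Z1 := cl_min c1 u1
      have s2 : cl c P L0 [] (x2 ++ e2, []) ⊆ Z2 := cl_min c2 u2
      have f1 := (cc_cl (c := c) (F := []) (x := (x1 ++ e1, [])) w1).ctl (x1.zip e1) (by
        intro z hz
        obtain ⟨i, hi, hi', rfl⟩ := zip_get hz
        exact ⟨base_mem_cl (x := (x1 ++ e1, [])) w1 (List.mem_append_left _ (List.getElem_mem _)),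
          base_mem_cl (x := (x1 ++ e1, [])) w1 (List.mem_append_right _ (List.getElem_mem _))⟩)
        hp1 (x2 ++ D.filter (fun y => decide (y ∈ P))) (by
          intro y hy
          rcases List.mem_append.1 hy with h | h
          · exact ⟨((m2 y).1 h).2.1, fun h' => ((m2 y).1 h).2.2 (s1 h').2⟩
          · exact ⟨(hC y h).1, (hC y h).2.1⟩)
      have f2 := (cc_cl (c := c) (F := []) (x := (x2 ++ e2, [])) w2).ctl (x2.zip e2) (by
        intro z hz
        obtain ⟨i, hi, hi', rfl⟩ := zip_get hz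
        exact ⟨base_mem_cl (x := (x2 ++ e2, [])) w2 (List.mem_append_left _ (List.getElem_mem _)),
          base_mem_cl (x := (x2 ++ e2, [])) w2 (List.mem_append_right _ (List.getElem_mem _))⟩)
        hp2 (e1 ++ D.filter (fun y => decide (y ∈ P))) (by
          intro y hy
          rcases List.mem_append.1 hy with h | h
          · have h3 := hE1 e1 he1 y h
            exact ⟨h3.1, fun h' => (s2 h').2 h3.2⟩
          · exact ⟨(hC y h).1, (hC y h).2.2⟩)
      refine f1.comp f2 ?_
      intro z hz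
      rcases List.mem_append.1 hz with h | h
      · obtain ⟨h1, h2⟩ := mem_dg.1 h
        by_cases hzP : z.1 ∈ P
        · have h3 : z.1 ∈ D.filter (fun y => decide (y ∈ P)) := by
            rw [List.mem_filter, decide_eq_true_iff]
            exact ⟨h2, hzP⟩
          exact ⟨z.1, List.mem_append_left _ (mem_dg.2 ⟨rfl, List.mem_append_right _ h3⟩),
            List.mem_append_left _ (mem_dg.2 ⟨h1, List.mem_append_right _ h3⟩)⟩
        · have h3 : z.1 ∈ L0 := by
            rcases hD z.1 h2 with h' | h'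
            · exact absurd h'.1 hzP
            · exact List.mem_append_right _ h'
          exact ⟨z.1, List.mem_append_right _ (List.mem_append_left _ (mem_dg.2 ⟨rfl, h3⟩)),
            List.mem_append_right _ (List.mem_append_left _ (mem_dg.2 ⟨h1, h3⟩))⟩
      · obtain ⟨i, hi, hi', rfl⟩ := zip_get h
        simp only [List.getElem_map]
        have hax : x[i] ∈ x := List.getElem_mem _
        by_cases h1 : x[i] ∈ x1
        · exact ⟨φ x[i], List.mem_append_right _ (List.mem_append_right _ (q1 _ h1)),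
            List.mem_append_left _ (mem_dg.2 ⟨rfl, List.mem_append_left _ (r1 _ h1)⟩)⟩
        · by_cases h2 : x[i] ∈ x2
          · exact ⟨x[i], List.mem_append_left _ (mem_dg.2 ⟨rfl, List.mem_append_left _ h2⟩),
              List.mem_append_right _ (List.mem_append_right _ (q2 _ h2))⟩
          · obtain ⟨h3, h4⟩ := q3 _ hax h1 h2
            have h5 : x[i] ∈ L0 := List.mem_append_left _ h4
            rw [h3]
            exact ⟨x[i], List.mem_append_right _ (List.mem_append_left _ (mem_dg.2 ⟨rfl, h5⟩)),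
              List.mem_append_right _ (List.mem_append_left _ (mem_dg.2 ⟨rfl, h5⟩))⟩

end Pool.Agent.CR
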