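import Pool.Agent.H71.CR.Stmt

/-! FCT: finitely many classes and control by a finite list. -/

set_option autoImplicit false

open Set Pool.Agent.TK Pool.Agent.H71.VK

namespace Pool.Agent.CR

private lemma h14_zip_map (s : List (ℕ × ℕ)) : (s.map Prod.fst).zip (s.map Prod.snd) = s := by
  induction s with
  | nil => rfl
  | cons z s ih => simp [ih]

private lemma h14_mem_zip_left {x x' : List ℕ} {z : ℕ × ℕ} (hz : z ∈ x.zip x') :
    z.1 ∈ x ∧ z.2 ∈ x' := by
  obtain ⟨i, hx, hy, rfl⟩ := zip_get hz
  exact ⟨List.getElem_mem _, List.getElem_mem _⟩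

theorem pf_FCT (hREP : T_REP) : T_FCT := by
  classical
  intro n c hc Y A
  constructor
  · rintro ⟨E, hEA, hE⟩
    -- the distinguishing lists
    have hch : ∀ p : List ℕ × List ℕ, ∃ D : List ℕ, (∀ a ∈ D, a ∈ Y) ∧
        (p.1.length = p.2.length → ¬ SO c Y p.1 p.2 → ¬ Pl c c (dg D ++ p.1.zip p.2)) := by
      intro p
      by_cases h : p.1.length = p.2.length ∧ ¬ SO c Y p.1 p.2
      · have h2 : ¬ ∀ D : List ℕ, (∀ y ∈ D, y ∈ Y) → Pl c c (dg D ++ p.1.zip p.2) :=
          fun h3 => h.2 ⟨h.1, h3⟩
        push Not at h2
        obtain ⟨D, hD, hD'⟩ := h2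
        exact ⟨D, hD, fun _ _ => hD'⟩
      · refine ⟨[], by simp, fun h1 h2 => absurd ⟨h1, h2⟩ h⟩
    choose Df hDf hDf' using hch
    refine ⟨(E ×ˢ E).flatMap Df, ?_, ?_⟩
    · intro a ha
      obtain ⟨p, -, hp⟩ := List.mem_flatMap.1 ha
      exact hDf p a hp
    · intro x x' hl hx hx' hP
      have hLY : ∀ a ∈ (E ×ˢ E).flatMap Df, a ∈ Y := by
        intro a ha
        obtain ⟨p, -, hp⟩ := List.mem_flatMap.1 ha
        exact hDf p a hp
      refine ⟨hl, ?_⟩
      intro D hD s hs
      by_cases hsl : s.length ≤ n.2
      · -- the pairs of the zip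
        have hs0 : ∀ z ∈ s.filter (fun z => z ∈ x.zip x'), z ∈ x.zip x' := by
          intro z hz
          have := List.of_mem_filter hz
          simpa using this
        have hlen0 : (s.filter (fun z => z ∈ x.zip x')).length ≤ n.2 :=
          (List.length_filter_le _ _).trans hsl
        obtain ⟨s0, hs0e⟩ : ∃ s0, s0 = s.filter (fun z => z ∈ x.zip x') := ⟨_, rfl⟩
        rw [← hs0e] at hs0 hlen0
        have hA0 : ∀ a ∈ s0.map Prod.fst, a ∈ A := by
          intro a ha
          obtain ⟨z, hz, rfl⟩ := List.mem_map.1 ha
          exact hx _ (h14_mem_zip_left (hs0 z hz)).1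
        have hA0' : ∀ a ∈ s0.map Prod.snd, a ∈ A := by
          intro a ha
          obtain ⟨z, hz, rfl⟩ := List.mem_map.1 ha
          exact hx' _ (h14_mem_zip_left (hs0 z hz)).2
        obtain ⟨e, heE, he⟩ := hE (s0.map Prod.fst) (by rw [List.length_map]; exact hlen0) hA0
        obtain ⟨e', heE', he'⟩ := hE (s0.map Prod.snd) (by rw [List.length_map]; exact hlen0) hA0'
        have l1 : (s0.map Prod.fst).length = e.length := he.1
        have l2 : (s0.map Prod.snd).length = e'.length := he'.1
        have l3 : (s0.map Prod.fst).length = (s0.map Prod.snd).length := by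
          rw [List.length_map, List.length_map]
        -- transport over a list in `Y`
        have key : ∀ B : List ℕ, (∀ y ∈ B, y ∈ Y) →
            (Pl c c (dg B ++ e.zip e') ↔
              Pl c c (dg B ++ (s0.map Prod.fst).zip (s0.map Prod.snd))) := by
          intro B hB
          have p1 := he.2 B hB
          have p2 := he'.2 B hB
          constructor
          · intro h
            exact (p1.zip_trans l1 h).zip_trans (l1.trans (by omega)) p2.zip_symm
          · intro h
            exact (p1.zip_symm.zip_trans l1.symm h).zip_trans (by omega) p2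
        have hP0 : Pl c c (dg ((E ×ˢ E).flatMap Df) ++
            (s0.map Prod.fst).zip (s0.map Prod.snd)) := by
          rw [h14_zip_map]
          refine hP.mono ?_
          intro z hz
          rcases List.mem_append.1 hz with h | h
          · exact List.mem_append_left _ h
          · exact List.mem_append_right _ (hs0 z h)
        have hPe := (key _ hLY).2 hP0
        have hSO : SO c Y e e' := by
          by_contra hno
          have hle : e.length = e'.length := by omega
          refine hDf' (e, e') hle hno (hPe.mono ?_)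
          intro z hz
          rcases List.mem_append.1 hz with h | h
          · refine List.mem_append_left _ ?_
            obtain ⟨h1, h2⟩ := mem_dg.1 h
            exact mem_dg.2 ⟨h1, List.mem_flatMap.2 ⟨(e, e'), by
              exact List.mem_product.2 ⟨heE, heE'⟩, h2⟩⟩
          · exact List.mem_append_right _ h
        have hfin := (key D hD).1 (hSO.2 D hD)
        rw [h14_zip_map] at hfin
        refine hfin s ?_
        intro z hz
        rcases List.mem_append.1 (hs z hz) with h | h
        · exact List.mem_append_left _ h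
        · refine List.mem_append_right _ ?_
          rw [hs0e, List.mem_filter]
          exact ⟨hz, by simpa using h⟩
      · rw [hc.ar _ (by rw [List.length_map]; omega), hc.ar _ (by rw [List.length_map]; omega)]
  · rintro ⟨L, hL⟩
    obtain ⟨E, hE, hE'⟩ := hREP n c hc L n.2 (fun x => ∀ a ∈ x, a ∈ A)
    refine ⟨E, hE, ?_⟩
    intro x hx hxA
    obtain ⟨e, he, hle, hP⟩ := hE' x hx hxA
    exact ⟨e, he, hL x e hle.symm hxA (hE e he) hP⟩

end Pool.Agent.CR
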