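import Pool.Agent.H71.CR.Stmt

/-! REP: finitely many types over a list. -/

set_option autoImplicit false

open Set Pool.Agent.TK Pool.Agent.H71.VK

namespace Pool.Agent.CR

/-- the pairs of the position are given by an index -/
private lemma h14_idx {L x e : List ℕ} (hl : e.length = x.length) {z : ℕ × ℕ}
    (hz : z ∈ dg L ++ x.zip e) :
    ∃ i : ℕ, i < x.length + L.length ∧ z = ((x ++ L).getD i 0, (e ++ L).getD i 0) := by
  rcases List.mem_append.1 hz with h | h
  · obtain ⟨h1, h2⟩ := mem_dg.1 h
    obtain ⟨i, hi, hiz⟩ := List.mem_iff_getElem.1 h2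
    refine ⟨x.length + i, by omega, ?_⟩
    have e1 : (x ++ L).getD (x.length + i) 0 = z.1 := by
      rw [List.getD_eq_getElem _ _ (by rw [List.length_append]; omega),
        List.getElem_append_right (by omega)]
      simpa using hiz
    have e2 : (e ++ L).getD (x.length + i) 0 = z.2 := by
      rw [List.getD_eq_getElem _ _ (by rw [List.length_append]; omega),
        List.getElem_append_right (by omega)]
      rw [← h1, ← hiz]
      congr 1
      omega
    rw [e1, e2]
  · obtain ⟨i, hx, hy, rfl⟩ := zip_get h
    refine ⟨i, by omega, ?_⟩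
    rw [List.getD_eq_getElem _ _ (by rw [List.length_append]; omega),
      List.getD_eq_getElem _ _ (by rw [List.length_append]; omega),
      List.getElem_append_left hx, List.getElem_append_left hy]

theorem pf_REP : T_REP := by
  classical
  intro n c hc L k Q
  have hW : Finite {w : List (Fin (k + L.length)) // w.length ≤ n.2} :=
    (List.finite_length_le (Fin (k + L.length)) n.2).to_subtype
  let T : List ℕ → {w : List (Fin (k + L.length)) // w.length ≤ n.2} → Fin n.1 :=
    fun x w => ⟨c (w.1.map (fun i : Fin (k + L.length) => (x ++ L).getD i.val 0)), hc.bd _⟩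
  let τ : List ℕ → ℕ × ({w : List (Fin (k + L.length)) // w.length ≤ n.2} → Fin n.1) :=
    fun x => (x.length, T x)
  let S : Set (List ℕ) := {x | x.length ≤ k ∧ Q x}
  have hfin : (τ '' S).Finite := by
    refine ((Set.finite_le_nat k).prod (Set.finite_univ
      (α := {w : List (Fin (k + L.length)) // w.length ≤ n.2} → Fin n.1))).subset ?_
    rintro _ ⟨x, hx, rfl⟩
    exact ⟨hx.1, mem_univ _⟩
  obtain ⟨E, hE, hE'⟩ := Finset.subset_set_image_iff.1
    (show (hfin.toFinset : Set _) ⊆ τ '' S by rw [hfin.coe_toFinset])
  refine ⟨E.toList, ?_, ?_⟩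
  · intro e he
    exact (hE (Finset.mem_coe.2 (Finset.mem_toList.1 he))).2
  · intro x hx hQ
    have h1 : τ x ∈ E.image τ := by
      rw [hE', hfin.mem_toFinset]
      exact ⟨x, ⟨hx, hQ⟩, rfl⟩
    obtain ⟨e, he, hex⟩ := Finset.mem_image.1 h1
    have hlen : e.length = x.length := congrArg Prod.fst hex
    have hT : T e = T x := congrArg Prod.snd hex
    refine ⟨e, Finset.mem_toList.2 he, hlen, ?_⟩
    intro s hs
    by_cases hsl : s.length ≤ n.2
    · choose! f hf hf' using fun z (hz : z ∈ s) => h14_idx hlen (hs z hz)
      have hN : ∀ z ∈ s, f z < k + L.length := fun z hz => by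
        have := hf z hz
        omega
      let w : List (Fin (k + L.length)) := s.pmap (fun z hz => ⟨f z, hz⟩) hN
      have hw : w.length ≤ n.2 := by
        simpa [w] using hsl
      have h2 := congrFun hT ⟨w, hw⟩
      have h3 : c (w.map (fun i : Fin (k + L.length) => (e ++ L).getD i.val 0)) =
          c (w.map (fun i : Fin (k + L.length) => (x ++ L).getD i.val 0)) :=
        congrArg Fin.val h2
      have e1 : w.map (fun i : Fin (k + L.length) => (x ++ L).getD i.val 0) = s.map Prod.fst := by
        simp only [w, List.map_pmap]
        rw [List.pmap_eq_map]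
        apply List.map_congr_left
        intro z hz
        exact (congrArg Prod.fst (hf' z hz)).symm
      have e2 : w.map (fun i : Fin (k + L.length) => (e ++ L).getD i.val 0) = s.map Prod.snd := by
        simp only [w, List.map_pmap]
        rw [List.pmap_eq_map]
        apply List.map_congr_left
        intro z hz
        exact (congrArg Prod.snd (hf' z hz)).symm
      rw [e1, e2] at h3
      exact h3.symm
    · rw [hc.ar _ (by rw [List.length_map]; omega), hc.ar _ (by rw [List.length_map]; omega)]

end Pool.Agent.CR
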