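import Pool.Agent.H88.CR.Targets
import Pool.Agent.H42.WR.REN

/-!
SUN: existence of the new norm (MP_479f73_an).
-/

set_option autoImplicit false

open Filter Topology Set Pool.Agent.H85.WMP Pool.Agent.H88.WR Pool.Agent.H88.CR

namespace Pool.Agent.H14.CR

theorem sqrt_tri (s t s' t' : ℝ) :
    √((s + s') ^ 2 + (t + t') ^ 2) ≤ √(s ^ 2 + t ^ 2) + √(s' ^ 2 + t' ^ 2) := by
  have h := norm_add_le (⟨s, t⟩ : ℂ) ⟨s', t'⟩
  have e : ∀ a b : ℝ, ‖(⟨a, b⟩ : ℂ)‖ = √(a ^ 2 + b ^ 2) := by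
    intro a b
    rw [Complex.norm_def, Complex.normSq_mk]
    congr 1
    ring
  have e' : (⟨s, t⟩ : ℂ) + ⟨s', t'⟩ = ⟨s + s', t + t'⟩ := rfl
  rw [e', e, e, e] at h
  exact h

theorem pf_SUN (𝕜 : Type) [RCLike 𝕜] : T_SUN 𝕜 := by
  intro F _ _ φ c ε κ M hε hκ hM hc0 hc1
  have hM0 : 0 ≤ M := (norm_nonneg _).trans (hM 0)
  have hb : ∀ y n, ‖φ n y‖ ≤ M * ‖y‖ := fun y n =>
    ((φ n).le_opNorm y).trans (mul_le_mul_of_nonneg_right (hM n) (norm_nonneg _))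
  have hcn : ∀ n, 0 ≤ c n := fun n => hκ.le.trans (hc0 n)
  have ht : ∀ y n, c n * √(‖φ n y‖ ^ 2 + (ε * ‖y‖) ^ 2) ≤ (M + ε) * ‖y‖ := by
    intro y n
    have h1 : √(‖φ n y‖ ^ 2 + (ε * ‖y‖) ^ 2) ≤ (M + ε) * ‖y‖ := by
      refine Real.sqrt_le_iff.2 ⟨by positivity, ?_⟩
      have h2 := hb y n
      have h3 : 0 ≤ ε * ‖y‖ := by positivity
      have h4 : 0 ≤ M * ‖y‖ := by positivity
      have h5 := norm_nonneg (φ n y)
      nlinarith [mul_nonneg h3 h4, mul_self_le_mul_self h5 h2]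
    calc c n * √(‖φ n y‖ ^ 2 + (ε * ‖y‖) ^ 2)
        ≤ 1 * √(‖φ n y‖ ^ 2 + (ε * ‖y‖) ^ 2) :=
          mul_le_mul_of_nonneg_right (hc1 n) (Real.sqrt_nonneg _)
      _ ≤ _ := by rw [one_mul]; exact h1
  have hbd : ∀ y, BddAbove (Set.range fun n => c n * √(‖φ n y‖ ^ 2 + (ε * ‖y‖) ^ 2)) :=
    fun y => ⟨(M + ε) * ‖y‖, by rintro _ ⟨n, rfl⟩; exact ht y n⟩
  obtain ⟨F', i1, i2, e, he⟩ := Pool.Agent.H42.WR.newnorm 𝕜 F
    (fun y => ⨆ n, c n * √(‖φ n y‖ ^ 2 + (ε * ‖y‖) ^ 2)) (by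
      intro x y
      refine ciSup_le fun n => ?_
      have h1 : √(‖φ n (x + y)‖ ^ 2 + (ε * ‖x + y‖) ^ 2) ≤
          √(‖φ n x‖ ^ 2 + (ε * ‖x‖) ^ 2) + √(‖φ n y‖ ^ 2 + (ε * ‖y‖) ^ 2) := by
        refine le_trans ?_ (sqrt_tri _ _ _ _)
        refine Real.sqrt_le_sqrt (add_le_add ?_ ?_)
        · rw [map_add]
          exact pow_le_pow_left₀ (norm_nonneg _) (norm_add_le _ _) 2
        · rw [← mul_add]
          exact pow_le_pow_left₀ (by positivity)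
            (mul_le_mul_of_nonneg_left (norm_add_le _ _) hε.le) 2
      calc c n * √(‖φ n (x + y)‖ ^ 2 + (ε * ‖x + y‖) ^ 2)
          ≤ c n * (√(‖φ n x‖ ^ 2 + (ε * ‖x‖) ^ 2) + √(‖φ n y‖ ^ 2 + (ε * ‖y‖) ^ 2)) :=
            mul_le_mul_of_nonneg_left h1 (hcn n)
        _ = _ := mul_add _ _ _
        _ ≤ _ := add_le_add (le_ciSup (hbd x) n) (le_ciSup (hbd y) n)) (by
      intro a x
      rw [Real.mul_iSup_of_nonneg (norm_nonneg a)]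
      refine iSup_congr fun n => ?_
      rw [map_smul, smul_eq_mul, norm_mul, norm_smul]
      have h1 : (‖a‖ * ‖φ n x‖) ^ 2 + (ε * (‖a‖ * ‖x‖)) ^ 2 =
          ‖a‖ ^ 2 * (‖φ n x‖ ^ 2 + (ε * ‖x‖) ^ 2) := by ring
      rw [h1, Real.sqrt_mul (by positivity), Real.sqrt_sq (norm_nonneg a)]
      ring) (κ * ε) (M + ε) (by positivity) (by
      intro x
      refine le_trans ?_ (le_ciSup (hbd x) 0)
      have h1 : ε * ‖x‖ ≤ √(‖φ 0 x‖ ^ 2 + (ε * ‖x‖) ^ 2) :=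
        Real.le_sqrt_of_sq_le (le_add_of_nonneg_left (by positivity))
      calc κ * ε * ‖x‖ = κ * (ε * ‖x‖) := by ring
        _ ≤ c 0 * √(‖φ 0 x‖ ^ 2 + (ε * ‖x‖) ^ 2) :=
          mul_le_mul (hc0 0) h1 (by positivity) (hcn 0)) (fun x => ciSup_le fun n => ht x n)
  exact ⟨F', i1, i2, e, ⟨hε, hκ, hM, hc0, hc1, he⟩⟩

end Pool.Agent.H14.CR
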