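import Pool.Agent.H71.CR.Stmt

/-! ULT: in an atom the ideal is prime for the sets of finite index. -/

set_option autoImplicit false

open Set Pool.Agent.TK Pool.Agent.H71.VK

namespace Pool.Agent.CR

theorem pf_ULT (hDEC : T_DEC) : T_ULT := by
  intro n c Sm G π hv hgood hatom A hfi
  obtain ⟨⟨S, F, x, β⟩, hs, hsn, hdec⟩ := hDEC n c Sm G π hv hgood A hfi
  have hvt : Vd c ((S, F, x, true) :: π) := vd_flip true hs
  have hat := hatom [] S F x hvt
  simp only [List.nil_append] at hat
  -- the other side is in the ideal
  have hoth : G.Nn (st c ((S, F, x, !β) :: π)) := by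
    rcases hat with h | h
    · cases β with
      | true => exact absurd h hsn
      | false => exact h
    · cases β with
      | true => exact h
      | false => exact absurd h hsn
  have hrest : G.Nn (st c π \ st c ((S, F, x, β) :: π)) := by
    refine (hoth.union (G.nn_list S)).mono ?_
    rintro y ⟨hyP, hyn⟩
    by_cases hyS : y ∈ S
    · exact Or.inr hyS
    · left
      rcases st_cover (S := S) (F := F) (x := x) hv hyP hyS with h | h
      · cases β with
        | true => exact absurd h hyn
        | false => exact h
      · cases β with
        | true => exact h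
        | false => exact absurd h hyn
  rcases hdec with h | h
  · right
    refine hrest.mono ?_
    rintro y ⟨hyP, hyA⟩
    exact ⟨hyP, fun hy => hyA (h hy)⟩
  · left
    refine hrest.mono ?_
    rintro y ⟨hyP, hyA⟩
    exact ⟨hyP, fun hy' => Set.disjoint_left.1 h hy' hyA⟩

end Pool.Agent.CR
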